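import Pool.Agent.Y213.TM.Stm
import Pool.Agent.TH954.Dir

set_option autoImplicit false

/-! Sets of integer vectors with the descent property are controlled by cosets (job 3275). -/

namespace Pool.Agent.Y674.TM

open Finset
open Pool.Agent.Y213.TM

/-- several directions -/
theorem box {n : ℕ} {N : ℕ → ℕ} {T : Set (Fin n → ℤ)} (hB : HasB n N T) (B : ℕ) (r : ℕ) :
    ∀ (c : Fin r → Fin n → ℤ) (s : Fin n → ℤ), (∀ l i, |c l i| ≤ B) →
      (∀ m : Fin r → ℕ, (∀ l, m l ≤ N B) → s + ∑ l, (m l : ℤ) • c l ∈ T) →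
      ∀ m : Fin r → ℤ, s + ∑ l, m l • c l ∈ T := by
  induction r with
  | zero =>
    intro c s _ h m
    have := h (fun _ => 0) (fun l => l.elim0)
    simpa using this
  | succ r ih =>
    intro c s hc h m
    rw [Fin.sum_univ_succ, ← add_assoc]
    refine ih (fun l => c l.succ) (s + m 0 • c 0) (fun l i => hc _ _) (fun m' hm' => ?_) _
    have h1 := hB B (s + ∑ l, (m' l : ℤ) • c l.succ) (c 0) (hc 0) (fun j hj => ?_) (m 0)
    · rw [add_right_comm] at h1
      exact h1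
    · have h2 := h (Fin.cons j m') (fun l => by
        refine Fin.cases ?_ (fun l => ?_) l
        · simpa using hj
        · simpa using hm' l)
      rw [Fin.sum_univ_succ] at h2
      simp only [Fin.cons_zero, Fin.cons_succ] at h2
      rw [add_comm ((j : ℤ) • c 0), ← add_assoc] at h2
      exact h2

/-- the norm -/
def Nm {n : ℕ} (x : Fin n → ℤ) : ℕ := univ.sup fun i => (x i).natAbs

theorem le_Nm {n : ℕ} (x : Fin n → ℤ) (i : Fin n) : |x i| ≤ Nm x := by
  have h : (x i).natAbs ≤ Nm x := le_sup (f := fun i => (x i).natAbs) (mem_univ i)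
  rw [Int.abs_eq_natAbs]
  exact_mod_cast h

theorem Nm_lt {n : ℕ} (x : Fin n → ℤ) {H : ℕ} (hH : 0 < H) (h : ∀ i, |x i| < H) : Nm x < H := by
  unfold Nm
  rw [Finset.sup_lt_iff (by simpa using hH)]
  intro i _
  have := h i
  rw [Int.abs_eq_natAbs] at this
  exact_mod_cast this

/-- the conclusion -/
def Con (n C B k0 : ℕ) (T : Set (Fin n → ℤ)) (t : Fin n → ℤ) : Prop :=
  ∃ (r : ℕ) (_ : r ≤ n) (s : Fin n → ℤ) (M : Fin r → Fin n → ℤ), (∀ i, |s i| ≤ C * k0) ∧
    (∀ l i, |M l i| ≤ B) ∧ (∃ z : Fin r → ℤ, t = s + ∑ l, z l • M l) ∧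
    ∀ z : Fin r → ℤ, s + ∑ l, z l • M l ∈ T

theorem Con.mono {n C B C' B' k0 : ℕ} {T : Set (Fin n → ℤ)} {t : Fin n → ℤ} (hC : C ≤ C')
    (hB : B ≤ B') (h : Con n C B k0 T t) : Con n C' B' k0 T t := by
  obtain ⟨r, hr, s, M, h1, h2, h3⟩ := h
  have hC' : (C : ℤ) ≤ C' := by exact_mod_cast hC
  have hB' : (B : ℤ) ≤ B' := by exact_mod_cast hB
  refine ⟨r, hr, s, M, fun i => (h1 i).trans ?_, fun l i => (h2 l i).trans hB', h3⟩
  exact mul_le_mul_of_nonneg_right hC' (Int.natCast_nonneg k0)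

/-- `k` independent directions -/
def GG (n A : ℕ) (κ N : ℕ → ℕ) (k : ℕ) : Prop := ∃ C B : ℕ, ∀ k0 : ℕ, 1 ≤ k0 →
  ∀ T : Set (Fin n → ℤ), HasD n A κ k0 T → HasB n N T → ∀ t ∈ T, Con n C B k0 T t ∨
    ∃ c : Fin k → Fin n → ℤ, LinearIndependent ℤ c ∧ (∀ l i, |c l i| ≤ B) ∧
      ∀ z : Fin k → ℤ, t + ∑ l, z l • c l ∈ T

theorem GG_zero (n A : ℕ) (κ N : ℕ → ℕ) : GG n A κ N 0 := by
  refine ⟨0, 0, fun k0 _ T _ _ t ht => Or.inr ⟨fun l => l.elim0, linearIndependent_empty_type,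
    fun l => l.elim0, fun z => ?_⟩⟩
  simpa using ht

/-- bounded relations -/
theorem exists_E (n k B B' : ℕ) : ∃ E : ℕ, ∀ (c : Fin k → Fin n → ℤ) (d : Fin n → ℤ),
    (∀ l i, |c l i| ≤ B) → (∀ i, |d i| ≤ B') →
    (∃ e : ℤ, e ≠ 0 ∧ ∃ z : Fin k → ℤ, e • d = ∑ l, z l • c l) →
    ∃ e : ℤ, e ≠ 0 ∧ |e| ≤ E ∧ ∃ z : Fin k → ℤ, e • d = ∑ l, z l • c l := by
  classical
  let f : (Fin k → Fin n → ℤ) × (Fin n → ℤ) → ℕ := fun p =>
    if h : ∃ e : ℤ, e ≠ 0 ∧ ∃ z : Fin k → ℤ, e • p.2 = ∑ l, z l • p.1 l then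
      (Classical.choose h).natAbs else 0
  have hfin : (Set.Icc ((fun _ _ => -(B : ℤ), fun _ => -(B' : ℤ)) :
      (Fin k → Fin n → ℤ) × (Fin n → ℤ)) (fun _ _ => (B : ℤ), fun _ => (B' : ℤ))).Finite :=
    Set.finite_Icc _ _
  obtain ⟨E, hE⟩ := (hfin.image f).bddAbove
  refine ⟨E, fun c d hc hd h => ?_⟩
  have hmem : (c, d) ∈ (Set.Icc ((fun _ _ => -(B : ℤ), fun _ => -(B' : ℤ)) :
      (Fin k → Fin n → ℤ) × (Fin n → ℤ)) (fun _ _ => (B : ℤ), fun _ => (B' : ℤ))) := by
    refine ⟨⟨fun l i => (abs_le.1 (hc l i)).1, fun i => (abs_le.1 (hd i)).1⟩,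
      ⟨fun l i => (abs_le.1 (hc l i)).2, fun i => (abs_le.1 (hd i)).2⟩⟩
  have h1 : f (c, d) ≤ E := hE ⟨_, hmem, rfl⟩
  have h2 : f (c, d) = (Classical.choose h).natAbs := dif_pos h
  obtain ⟨h3, h4⟩ := Classical.choose_spec h
  refine ⟨Classical.choose h, h3, ?_, h4⟩
  rw [Int.abs_eq_natAbs]
  rw [h2] at h1
  exact_mod_cast h1

theorem GG_succ {n A : ℕ} {κ N : ℕ → ℕ} {k : ℕ} (h : GG n A κ N k) : GG n A κ N (k + 1) := by
  obtain ⟨C, B, hG⟩ := h
  obtain ⟨M, hM⟩ : ∃ M : ℕ, M = 2 * A + 2 := ⟨_, rfl⟩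
  obtain ⟨Q, hQ⟩ : ∃ Q : ℕ, Q = M ^ n := ⟨_, rfl⟩
  obtain ⟨E, hE⟩ := exists_E n k B Q
  obtain ⟨Bn, hBn⟩ : ∃ Bn : ℕ, Bn = max B Q := ⟨_, rfl⟩
  obtain ⟨N', hN'⟩ : ∃ N' : ℕ, N' = N Bn := ⟨_, rfl⟩
  obtain ⟨W, hW⟩ : ∃ W : ℕ, W = k * (N' * B) := ⟨_, rfl⟩
  obtain ⟨K1, hK1⟩ : ∃ K1 : ℕ, K1 = Q + Q * N' + W := ⟨_, rfl⟩
  obtain ⟨C', hC'⟩ : ∃ C' : ℕ, C' = C + 2 * Q * E + M * Q * K1 + 2 * Q + 2 * Q * N' + Q * κ Q :=
    ⟨_, rfl⟩
  have hM0 : 0 < M := by omega
  have hQ1 : 1 ≤ Q := by rw [hQ]; exact Nat.one_le_pow _ _ hM0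
  refine ⟨C', Bn, fun k0 hk0 T hD hB t ht => ?_⟩
  rcases hG k0 hk0 T hD hB t ht with h | ⟨c, hli, hc, hcT⟩
  · exact Or.inl (h.mono (by rw [hC']; omega) (by rw [hBn]; exact le_max_left _ _))
  have hkn : k ≤ n := by
    have := hli.fintype_card_le_finrank
    rwa [Fintype.card_fin, Module.finrank_fin_fun] at this
  obtain ⟨z0, hz0⟩ : ∃ z0 : Fin k → ℤ, ∀ z : Fin k → ℤ,
      Nm (t + ∑ l, z0 l • c l) ≤ Nm (t + ∑ l, z l • c l) :=
    ⟨Function.argmin (fun z : Fin k → ℤ => Nm (t + ∑ l, z l • c l)), fun z =>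
      Function.argmin_le (fun z : Fin k → ℤ => Nm (t + ∑ l, z l • c l)) z⟩
  obtain ⟨a, ha⟩ : ∃ a, a = t + ∑ l, z0 l • c l := ⟨_, rfl⟩
  obtain ⟨H, hH⟩ : ∃ H : ℕ, H = Nm a := ⟨_, rfl⟩
  rw [← ha, ← hH] at hz0
  have haT : ∀ z : Fin k → ℤ, a + ∑ l, z l • c l ∈ T := by
    intro z
    have h1 := hcT (fun l => z0 l + z l)
    simp only [add_smul, sum_add_distrib] at h1
    rw [ha, add_assoc]
    exact h1
  rcases le_or_gt H (C' * k0) with hle | hgt
  · left
    refine ⟨k, hkn, a, c, fun i => ?_, fun l i => (hc l i).trans ?_, ⟨fun l => -z0 l, ?_⟩, haT⟩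
    · refine (le_Nm a i).trans ?_
      rw [← hH]
      exact_mod_cast hle
    · rw [hBn]
      exact_mod_cast le_max_left _ _
    · simp only [neg_smul, sum_neg_distrib]
      rw [ha]
      abel
  right
  have hCH : C' < H := lt_of_le_of_lt (Nat.le_mul_of_pos_right _ hk0) hgt
  have hH0 : 0 < H := by omega
  obtain ⟨q, hq1, hqQ, d, hd⟩ := Pool.Agent.TH954.dirichlet M hM0 a H hH0
  rw [Fintype.card_fin, ← hQ] at hqQ
  -- integers
  have hHz : (0 : ℤ) < H := by exact_mod_cast hH0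
  have hqz : (1 : ℤ) ≤ q := by exact_mod_cast hq1
  have hqQz : (q : ℤ) ≤ Q := by exact_mod_cast hqQ
  have hM2 : (2 : ℤ) ≤ M := by rw [hM]; push_cast; omega
  have haH : ∀ i, |a i| ≤ H := by
    intro i
    rw [hH]
    exact le_Nm a i
  obtain ⟨δ, hδ⟩ : ∃ δ : Fin n → ℤ, δ = fun i => q * a i - d i * H := ⟨_, rfl⟩
  have hδi : ∀ i, M * |δ i| < H := by
    intro i
    rw [hδ]
    exact hd i
  have hδ2 : ∀ i, 2 * |δ i| < H := fun i =>
    lt_of_le_of_lt (mul_le_mul_of_nonneg_right hM2 (abs_nonneg _)) (hδi i)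
  have hdq : ∀ i, |d i| ≤ q := by
    intro i
    have h1 : d i * H = q * a i - δ i := by rw [hδ]; ring
    have h2 : |d i| * H ≤ q * H + |δ i| := by
      rw [← abs_of_pos hHz, ← abs_mul, h1, abs_of_pos hHz]
      refine (abs_sub _ _).trans ?_
      rw [abs_mul, abs_of_nonneg (by omega : (0 : ℤ) ≤ q)]
      have := mul_le_mul_of_nonneg_left (haH i) (by omega : (0 : ℤ) ≤ q)
      omega
    have h3 := hδ2 i
    have h4 := abs_nonneg (δ i)
    have h5 : |d i| * H < (q + 1) * H := by linarith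
    have h6 := lt_of_mul_lt_mul_right h5 hHz.le
    omega
  have hdQ : ∀ i, |d i| ≤ Q := fun i => (hdq i).trans hqQz
  -- independence
  have hind : ¬ ∃ e : ℤ, e ≠ 0 ∧ ∃ z : Fin k → ℤ, e • d = ∑ l, z l • c l := by
    intro hex
    obtain ⟨e, he0, heE, z, hez⟩ := hE c d hc hdQ hex
    obtain ⟨m, hm⟩ : ∃ m : ℤ, m = (H : ℤ) / (q * e) := ⟨_, rfl⟩
    obtain ⟨r, hr⟩ : ∃ r : ℤ, r = (H : ℤ) % (q * e) := ⟨_, rfl⟩
    have hqe : (q : ℤ) * e ≠ 0 := mul_ne_zero (by omega) he0
    have hr0 : 0 ≤ r := by rw [hr]; exact Int.emod_nonneg _ hqe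
    have hr1 : r < q * |e| := by
      rw [hr]
      have := Int.emod_lt_abs (H : ℤ) hqe
      rwa [abs_mul, abs_of_nonneg (by omega : (0 : ℤ) ≤ q)] at this
    have hrm : (q * e) * m + r = H := by rw [hr, hm]; exact Int.mul_ediv_add_emod _ _
    have h1 := hz0 (fun l => z0 l - m * z l)
    have h2 : t + ∑ l, (z0 l - m * z l) • c l = a - (e * m) • d := by
      have h3 : (e * m) • d = ∑ l, (m * z l) • c l := by
        rw [mul_comm, mul_smul, hez, smul_sum]
        simp only [mul_smul]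
      rw [h3, ha]
      simp only [sub_smul, sum_sub_distrib]
      abel
    rw [h2] at h1
    have h3 : Nm (a - (e * m) • d) < H := by
      refine Nm_lt _ hH0 fun i => ?_
      obtain ⟨x, hx⟩ : ∃ x, x = (a - (e * m) • d) i := ⟨_, rfl⟩
      rw [← hx]
      have h4 : q * x = δ i + d i * r := by
        rw [hx, hδ]
        simp only [Pi.sub_apply, Pi.smul_apply, smul_eq_mul]
        have h5 : r = H - (q * e) * m := by linarith
        rw [h5]
        ring
      have h5 : q * |x| ≤ |δ i| + |d i| * r := by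
        have h6 : |q * x| ≤ |δ i| + |d i * r| := by rw [h4]; exact abs_add_le _ _
        rw [abs_mul, abs_mul, abs_of_nonneg (by omega : (0 : ℤ) ≤ q), abs_of_nonneg hr0] at h6
        exact h6
      have h6 : |d i| * r ≤ q * (q * E) := by
        have h7 : |d i| * r ≤ q * r := mul_le_mul_of_nonneg_right (hdq i) hr0
        have h8 : r ≤ q * E := hr1.le.trans (mul_le_mul_of_nonneg_left heE (by omega))
        exact h7.trans (mul_le_mul_of_nonneg_left h8 (by omega))
      have h7 := hδ2 i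
      by_contra hcon
      rw [not_lt] at hcon
      -- `2 q H < H + 2 q² E`
      have h8 : (q : ℤ) * H ≤ q * |x| := mul_le_mul_of_nonneg_left hcon (by omega)
      have h9 : (q : ℤ) * H < q * (2 * (q * E)) := by
        have h10 : (H : ℤ) ≤ q * H := le_mul_of_one_le_left hHz.le hqz
        linarith
      have h10 : (H : ℤ) < 2 * (q * E) := lt_of_mul_lt_mul_left h9 (by omega)
      have h11 : (q : ℤ) * E ≤ Q * E := mul_le_mul_of_nonneg_right hqQz (Int.natCast_nonneg E)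
      have h12 : ((2 * Q * E : ℕ) : ℤ) ≤ C' := by
        have : 2 * Q * E ≤ C' := by rw [hC']; omega
        exact_mod_cast this
      have h13 : (C' : ℤ) < H := by exact_mod_cast hCH
      push_cast at h12
      linarith
    omega
  -- the new directions
  obtain ⟨k1, hk1⟩ : ∃ k1 : ℤ, k1 = (H : ℤ) / q := ⟨_, rfl⟩
  obtain ⟨r1, hr1⟩ : ∃ r1 : ℤ, r1 = (H : ℤ) % q := ⟨_, rfl⟩
  have hr10 : 0 ≤ r1 := by rw [hr1]; exact Int.emod_nonneg _ (by omega)
  have hr1q : r1 < q := by rw [hr1]; exact Int.emod_lt_of_pos _ (by omega)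
  have hrk : (q : ℤ) * k1 + r1 = H := by rw [hr1, hk1]; exact Int.mul_ediv_add_emod _ _
  have hBnB : (B : ℤ) ≤ Bn := by rw [hBn]; exact_mod_cast le_max_left _ _
  have hBnQ : (Q : ℤ) ≤ Bn := by rw [hBn]; exact_mod_cast le_max_right _ _
  have hall : ∀ z : Fin (k + 1) → ℤ, (a - k1 • d) +
      ∑ l, z l • (Fin.cons d c : Fin (k + 1) → Fin n → ℤ) l ∈ T := by
    refine box hB Bn (k + 1) _ _ ?_ ?_
    · intro l
      refine Fin.cases ?_ (fun l => ?_) l
      · intro i
        rw [Fin.cons_zero]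
        exact (hdQ i).trans hBnQ
      · intro i
        rw [Fin.cons_succ]
        exact (hc l i).trans hBnB
    · intro m hm
      rw [← hN'] at hm
      rw [Fin.sum_univ_succ]
      simp only [Fin.cons_zero, Fin.cons_succ]
      obtain ⟨v, hv⟩ : ∃ v, v = ∑ l : Fin k, (m l.succ : ℤ) • c l := ⟨_, rfl⟩
      rw [← hv]
      have hm0 : (m 0 : ℤ) ≤ N' := by exact_mod_cast hm 0
      have hm00 : (0 : ℤ) ≤ m 0 := Int.natCast_nonneg _
      have hvW : ∀ i, |v i| ≤ W := by
        intro i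
        rw [hv, Finset.sum_apply]
        refine (abs_sum_le_sum_abs _ _).trans ?_
        have h1 : ∀ l ∈ (univ : Finset (Fin k)), |((m l.succ : ℤ) • c l) i| ≤ ((N' * B : ℕ) : ℤ) := by
          intro l _
          rw [Pi.smul_apply, smul_eq_mul, abs_mul, abs_of_nonneg (Int.natCast_nonneg _)]
          push_cast
          have h2 : (m l.succ : ℤ) ≤ N' := by exact_mod_cast hm l.succ
          exact mul_le_mul h2 (hc l i) (abs_nonneg _) (Int.natCast_nonneg _)
        refine (sum_le_card_nsmul _ _ _ h1).trans ?_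
        rw [card_univ, Fintype.card_fin, hW]
        push_cast
        rw [nsmul_eq_mul]
      obtain ⟨kk, hkk⟩ : ∃ kk : ℤ, kk = k1 - m 0 := ⟨_, rfl⟩
      have hqkk : (q : ℤ) * kk = H - (r1 + q * m 0) := by
        rw [hkk]
        linear_combination hrk
      have hqm : (q : ℤ) * m 0 ≤ Q * N' := mul_le_mul hqQz hm0 hm00 (Int.natCast_nonneg _)
      have hC'k : (C' : ℤ) * k0 < H := by exact_mod_cast hgt
      have hk0z : (1 : ℤ) ≤ k0 := by exact_mod_cast hk0
      have hC'z : (C' : ℤ) = C + 2 * Q * E + M * Q * K1 + 2 * Q + 2 * Q * N' + Q * κ Q := by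
        rw [hC']; push_cast; ring
      have hK1z : (K1 : ℤ) = Q + Q * N' + W := by rw [hK1]; push_cast; ring
      have hMQK : (0 : ℤ) ≤ M * Q * K1 := by positivity
      have hQE : (0 : ℤ) ≤ 2 * Q * E := by positivity
      have hQN : (0 : ℤ) ≤ Q * N' := by positivity
      have hQκ : (0 : ℤ) ≤ Q * κ Q := by positivity
      have hCz : (0 : ℤ) ≤ C := Int.natCast_nonneg _
      have hQz : (1 : ℤ) ≤ Q := by exact_mod_cast hQ1
      have hgoal : a - k1 • d + ((m 0 : ℤ) • d + v) = (a + v) - kk • d := by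
        rw [hkk, sub_smul]
        abel
      rw [hgoal]
      refine hD Q kk (a + v) _ d ?_ hdQ ?_ (by abel) ?_
      · -- `κ Q * k0 ≤ kk`
        have h1 : (q : ℤ) * (κ Q * k0) ≤ q * kk := by
          rw [hqkk]
          have h2 : (q : ℤ) * (κ Q * k0) ≤ Q * (κ Q * k0) :=
            mul_le_mul_of_nonneg_right hqQz (by positivity)
          have h3 : ((Q : ℤ) * κ Q + (2 * Q + 2 * Q * N')) * k0 ≤ C' * k0 :=
            mul_le_mul_of_nonneg_right (by rw [hC'z]; linarith) (by omega)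
          have h4 : (2 * Q + 2 * Q * N' : ℤ) ≤ (2 * Q + 2 * Q * N') * k0 :=
            le_mul_of_one_le_right (by positivity) hk0z
          linarith
        have h2 := le_of_mul_le_mul_left h1 (by omega)
        push_cast
        exact h2
      · intro i
        obtain ⟨x, hx⟩ : ∃ x, x = ((a + v) - kk • d) i := ⟨_, rfl⟩
        rw [← hx]
        have h4 : q * x = δ i + d i * (r1 + q * m 0) + q * v i := by
          rw [hx, hδ]
          simp only [Pi.sub_apply, Pi.add_apply, Pi.smul_apply, smul_eq_mul]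
          have h5 : r1 + q * m 0 = H - q * kk := by linarith
          rw [h5]
          ring
        have hrm : 0 ≤ r1 + q * m 0 := by positivity
        have h5 : q * |x| ≤ |δ i| + |d i| * (r1 + q * m 0) + q * |v i| := by
          have h6 : |q * x| ≤ |δ i| + |d i * (r1 + q * m 0)| + |q * v i| := by
            rw [h4]
            exact abs_add_three _ _ _
          rw [abs_mul, abs_mul, abs_mul, abs_of_nonneg (by omega : (0 : ℤ) ≤ q),
            abs_of_nonneg hrm] at h6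
          exact h6
        have h6 : |d i| * (r1 + q * m 0) ≤ q * (Q + Q * N') := by
          refine mul_le_mul (hdq i) ?_ hrm (by omega)
          linarith
        have h7 : q * |v i| ≤ q * W := mul_le_mul_of_nonneg_left (hvW i) (by omega)
        have h8 : q * |x| ≤ |δ i| + q * K1 := by
          rw [hK1z]
          linarith
        have h9 : M * (q * |x|) ≤ H + M * (q * K1) := by
          have h10 : M * (q * |x|) ≤ M * (|δ i| + q * K1) :=
            mul_le_mul_of_nonneg_left h8 (by omega)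
          have h11 := hδi i
          rw [mul_add] at h10
          linarith
        have h10 : (M : ℤ) * (q * K1) ≤ M * (Q * K1) :=
          mul_le_mul_of_nonneg_left (mul_le_mul_of_nonneg_right hqQz (Int.natCast_nonneg _))
            (by omega)
        have hMz : (M : ℤ) = 2 * A + 2 := by rw [hM]; push_cast; ring
        have h11 : 2 * A * (q * |x|) ≤ M * (q * |x|) := by
          refine mul_le_mul_of_nonneg_right (by rw [hMz]; omega) ?_
          positivity
        have h12 : (C' : ℤ) < H := by exact_mod_cast hCH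
        rw [hC'z] at h12
        have h13 : (q : ℤ) * (A * |x|) ≤ q * kk := by
          rw [hqkk]
          linarith
        exact le_of_mul_le_mul_left h13 (by omega)
      · rw [hv]
        exact haT _
  refine ⟨Fin.cons d c, ?_, ?_, ?_⟩
  · rw [Fintype.linearIndependent_iff]
    intro g hg
    rw [Fin.sum_univ_succ] at hg
    simp only [Fin.cons_zero, Fin.cons_succ] at hg
    have hg0 : g 0 = 0 := by
      by_contra hne
      apply hind
      refine ⟨g 0, hne, fun l => -g l.succ, ?_⟩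
      simp only [neg_smul, sum_neg_distrib]
      exact eq_neg_of_add_eq_zero_left hg
    rw [hg0, zero_smul, zero_add] at hg
    intro l
    refine Fin.cases hg0 (fun l => ?_) l
    exact (Fintype.linearIndependent_iff.1 hli) _ hg l
  · intro l
    refine Fin.cases ?_ (fun l => ?_) l
    · intro i
      rw [Fin.cons_zero]
      exact (hdQ i).trans hBnQ
    · intro i
      rw [Fin.cons_succ]
      exact (hc l i).trans hBnB
  · intro z
    have h1 := hall (Fin.cons (z 0 + k1) (fun l => z l.succ - z0 l))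
    rw [Fin.sum_univ_succ] at h1 ⊢
    simp only [Fin.cons_zero, Fin.cons_succ, add_smul, sub_smul, sum_sub_distrib] at h1 ⊢
    have h2 : t + (z 0 • d + ∑ l : Fin k, z l.succ • c l) =
        a - k1 • d + (z 0 • d + k1 • d + (∑ l : Fin k, z l.succ • c l - ∑ l : Fin k, z0 l • c l)) := by
      rw [ha]
      abel
    rw [h2]
    exact h1

theorem GG_all (n A : ℕ) (κ N : ℕ → ℕ) (k : ℕ) : GG n A κ N k := by
  induction k with
  | zero => exact GG_zero n A κ N
  | succ k ih => exact GG_succ ih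

theorem comb : StComb := by
  intro n A κ N
  obtain ⟨C, B, h⟩ := GG_all n A κ N (n + 1)
  refine ⟨C, B, fun k0 hk0 T hD hB t ht => ?_⟩
  rcases h k0 hk0 T hD hB t ht with ⟨r, hr, s, M, h1, h2, ⟨z, hz⟩, h4⟩ | ⟨c, hli, -⟩
  · obtain ⟨m, rfl⟩ := Nat.exists_eq_add_of_le hr
    have hsum : ∀ z : Fin (r + m) → ℤ, ∑ l, z l • (Fin.append M (fun _ => 0) :
        Fin (r + m) → Fin (r + m) → ℤ) l = ∑ l : Fin r, z (Fin.castAdd m l) • M l := by
      intro z
      rw [Fin.sum_univ_add]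
      simp
    refine ⟨s, Fin.append M (fun _ => 0), h1, ?_, ⟨Fin.append z (fun _ => 0), ?_⟩, fun z => ?_⟩
    · intro l
      refine Fin.addCases (fun l => ?_) (fun l => ?_) l
      · intro i
        rw [Fin.append_left]
        exact h2 l i
      · intro i
        rw [Fin.append_right, Pi.zero_apply, abs_zero]
        exact Int.natCast_nonneg _
    · rw [hsum, hz]
      simp
    · rw [hsum]
      exact h4 _
  · exfalso
    have := hli.fintype_card_le_finrank
    rw [Fintype.card_fin, Module.finrank_fin_fun] at this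
    omega

end Pool.Agent.Y674.TM
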